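import Pool.Agent.BLP.StmtsV

/-!
# Squad BLP, row V_AVG: the expected number of sites with a valley
-/

set_option autoImplicit false

namespace Pool.Agent.BLP.V.H41

open MeasureTheory ProbabilityTheory Filter Topology Pool.Agent.BLP
open scoped ENNReal

noncomputable section

theorem v_avg (cnt : CntStmt) (msv : MsvStmt) (mea : MeaStmt) : AvgStmt := by
  intro X _ μ B hS α α' d v p q s n hα hαα hd hv hp hq hs hn hpn
  have := hS.prob
  classical
  have hsR : (0 : ℝ) < s := by exact_mod_cast hs
  have hpR : (1 : ℝ) ≤ p := by exact_mod_cast hp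
  have hsq : s * q ≤ n := by omega
  have hsqR : (s : ℝ) * q ≤ n := by exact_mod_cast hsq
  -- the measurable events
  have hm : ∀ i < s, MeasurableSet {x | Val α α' p d q (n - i * q) (B x)} := by
    intro i hi
    have h1 : i * q + q ≤ s * q := by
      have := Nat.mul_le_mul_right q (Nat.succ_le_of_lt hi)
      rw [Nat.succ_mul] at this
      exact this
    refine msv X μ B hS α α' d p q (n - i * q) hα hαα hd.le hp hq (by omega) ?_
    have h2 : ((n - i * q : ℕ) : ℝ) = n - i * q := by
      rw [Nat.cast_sub (by omega), Nat.cast_mul]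
    have h3 : (i : ℝ) * q ≤ s * q := by
      have : i * q ≤ s * q := by omega
      exact_mod_cast this
    rw [h2]
    have h4 : (n - s * q : ℝ) * α ≤ α * (n - i * q) := by
      rw [mul_comm]
      exact mul_le_mul_of_nonneg_left (by linarith) hα.le
    have h5 : (0 : ℝ) ≤ s * p := by positivity
    linarith
  -- the realisation of the shifts
  have hT : ∀ z : ℕ × ℕ, ∃ T : X → X, MeasurePreserving T μ μ ∧
      ∀ᵐ x ∂μ, B (T x) = shT ((z.2 * p : ℕ) : ℝ) (shL ((z.1 * q : ℕ) : ℤ) (B x)) := by
    intro z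
    obtain ⟨T, hT, hTe⟩ := hS.lv ((z.1 * q : ℕ) : ℤ)
    obtain ⟨T', hT', hTe'⟩ := hS.tr ((z.2 * p : ℕ) : ℚ)
    refine ⟨T' ∘ T, hT'.comp hT, ?_⟩
    have h1 := hT.quasiMeasurePreserving.ae hTe'
    filter_upwards [h1, hTe] with x hx hx'
    show B (T' (T x)) = _
    rw [hx, hx']
    norm_num
  choose T hTm hTe using hT
  set A : ℕ × ℕ → Set X := fun z => T z ⁻¹' {x | Val α α' p d q (n - z.1 * q) (B x)} with hA
  set S : Finset (ℕ × ℕ) := Finset.range s ×ˢ Finset.range s with hSdef
  have hAm : ∀ z ∈ S, MeasurableSet (A z) := by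
    intro z hz
    rw [hSdef, Finset.mem_product, Finset.mem_range, Finset.mem_range] at hz
    exact (hTm z).measurable (hm z.1 hz.1)
  have hAμ : ∀ z ∈ S, μ.real (A z) = μ.real {x | Val α α' p d q (n - z.1 * q) (B x)} := by
    intro z hz
    rw [hSdef, Finset.mem_product, Finset.mem_range, Finset.mem_range] at hz
    rw [Measure.real, Measure.real, (hTm z).measure_preimage (hm z.1 hz.1).nullMeasurableSet]
  have hsum : ∑ z ∈ S, μ.real (A z) =
      s * ∑ i ∈ Finset.range s, μ.real {x | Val α α' p d q (n - i * q) (B x)} := by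
    rw [Finset.sum_congr rfl hAμ, hSdef, Finset.sum_product, Finset.mul_sum]
    refine Finset.sum_congr rfl fun i _ => ?_
    show ∑ _y ∈ Finset.range s, μ.real {x | Val α α' p d q (n - i * q) (B x)} = _
    rw [Finset.sum_const, Finset.card_range, nsmul_eq_mul]
  -- the bad event
  have hWm : Measurable fun x => Wd (B x) α α' p q s n := by
    unfold Wd Dm
    have h0 : (0 : ℝ) ≤ s * p := by positivity
    have h1 : (s * p : ℝ) ≤ (n - s * q) * α := by linarith
    have h2 : (0 : ℝ) ≤ n * α' := by
      have : 0 < α' := hα.trans hαα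
      positivity
    refine ((mea X μ B hS _ _ _ _ (by positivity) ?_).sub (mea X μ B hS _ _ _ _ (by positivity) ?_)).sub
      ((mea X μ B hS _ _ _ _ (by exact_mod_cast hsq) ?_).sub
        (mea X μ B hS _ _ _ _ (by exact_mod_cast hsq) ?_))
    · linarith
    · exact h1
    · linarith
    · linarith
  set Bd : Set X := {x | v * s < |Wd (B x) α α' p q s n|} with hBd
  have hBm : MeasurableSet Bd := measurableSet_lt measurable_const hWm.abs
  -- the number of sites
  have hN : ∀ᵐ x ∂μ, ∑ z ∈ S, (A z).indicator (fun _ => (1 : ℝ)) x ≤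
      v ^ 2 * s ^ 2 / (2 * d ^ 2) + s ^ 2 * Bd.indicator (fun _ => (1 : ℝ)) x := by
    have h1 : ∀ᵐ x ∂μ, ∀ z : ℕ × ℕ,
        B (T z x) = shT ((z.2 * p : ℕ) : ℝ) (shL ((z.1 * q : ℕ) : ℤ) (B x)) := ae_all_iff.2 hTe
    filter_upwards [h1] with x hx
    have h2 : ∑ z ∈ S, (A z).indicator (fun _ => (1 : ℝ)) x = ((S.filter fun z => x ∈ A z).card : ℝ) := by
      rw [Finset.card_filter, Nat.cast_sum]
      refine Finset.sum_congr rfl fun z _ => ?_
      rw [Set.indicator_apply]
      split_ifs <;> simp
    rw [h2]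
    by_cases hb : x ∈ Bd
    · rw [Set.indicator_of_mem hb, mul_one]
      have h3 : ((S.filter fun z => x ∈ A z).card : ℝ) ≤ (s : ℝ) ^ 2 := by
        have h4 : (S.filter fun z => x ∈ A z).card ≤ S.card := Finset.card_filter_le _ _
        rw [hSdef, Finset.card_product, Finset.card_range] at h4
        rw [sq]
        exact_mod_cast h4
      have h5 : 0 ≤ v ^ 2 * s ^ 2 / (2 * d ^ 2) := by positivity
      linarith
    · rw [Set.indicator_of_notMem hb, mul_zero, add_zero]
      have h3 := cnt (B x) α α' d p q s n (hS.cts x) hα hαα.le hd.le hp hq hsq (by linarith)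
        (S.filter fun z => x ∈ A z) (by
          intro z hz
          rw [Finset.mem_filter, hSdef, Finset.mem_product, Finset.mem_range, Finset.mem_range] at hz
          refine ⟨hz.1.1, hz.1.2, ?_⟩
          have h4 : Val α α' p d q (n - z.1 * q) (B (T z x)) := hz.2
          rw [hx z] at h4
          exact h4)
      have h5 : |Wd (B x) α α' p q s n| ≤ v * s := not_lt.1 hb
      have h6 : Wd (B x) α α' p q s n ^ 2 ≤ (v * s) ^ 2 := by
        rw [← sq_abs]
        exact pow_le_pow_left₀ (abs_nonneg _) h5 2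
      rw [le_div_iff₀ (by positivity)]
      nlinarith
  have hI1 : Integrable (fun x => ∑ z ∈ S, (A z).indicator (fun _ => (1 : ℝ)) x) μ :=
    integrable_finsetSum _ fun z hz => (integrable_const 1).indicator (hAm z hz)
  have hI2 : Integrable (fun x => v ^ 2 * s ^ 2 / (2 * d ^ 2) +
      s ^ 2 * Bd.indicator (fun _ => (1 : ℝ)) x) μ :=
    (integrable_const _).add (((integrable_const 1).indicator hBm).const_mul _)
  have h1 := integral_mono_ae hI1 hI2 hN
  rw [integral_finsetSum _ fun z hz => (integrable_const 1).indicator (hAm z hz),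
    integral_add (integrable_const _) (((integrable_const 1).indicator hBm).const_mul _),
    integral_const_mul, integral_indicator_const _ hBm] at h1
  have h2 : ∑ z ∈ S, ∫ x, (A z).indicator (fun _ => (1 : ℝ)) x ∂μ = ∑ z ∈ S, μ.real (A z) := by
    refine Finset.sum_congr rfl fun z hz => ?_
    rw [integral_indicator_const _ (hAm z hz), smul_eq_mul, mul_one]
  rw [h2, hsum] at h1
  simp only [integral_const, probReal_univ, smul_eq_mul, mul_one, one_mul] at h1
  rw [div_le_iff₀ hsR]
  have h3 : (s : ℝ) * ∑ i ∈ Finset.range s, μ.real {x | Val α α' p d q (n - i * q) (B x)} ≤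
      s * ((v ^ 2 / (2 * d ^ 2) + μ.real Bd) * s) := by
    refine h1.trans (le_of_eq ?_)
    ring
  exact le_of_mul_le_mul_left h3 hsR

end

end Pool.Agent.BLP.V.H41
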